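import Mathlib
import Pool.Agent.R366.PP.Main
import Pool.Agent.R366.AB.Loc

/-!
# Vojta's inequality with truncated counting function on `ℙ¹ × ℙ¹`, for arbitrary divisors, at
# almost all pairs of points over any number field

Let `K` be a number field and let `D = D_1 + … + D_ℓ` be a reduced divisor on `ℙ¹ × ℙ¹` over `K`
with the irreducible components `D_j = {F_j = 0}` of bidegrees `(a_j, b_j)`, so that `D` has the
bidegree `(q, r) = (∑ a_j, ∑ b_j)`. We attach a weight `m_j` to the components: `m_j = 1` is always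
allowed; `m_j = 2` if `a_j + b_j = 2` (graphs of isomorphisms, pairs of conjugate fibres), and if
`F_j` is a norm form in two variables (the `k ≥ 2` conjugate fibres over a point of degree `k` of
one of the lines). Let `S` be a finite set of primes, and `κ₁ + κ₂ > ∑ (a_j + b_j - m_j)`.

Of the about `B ^ 4` pairs `(α, β)` of `K`-points of heights `H_K(α), H_K(β) ≤ B`, all but at most
`C B ^ (4 - c)` are off `D` and satisfy
`N_D^{(1)}(α, β) ≥ (q - κ₁) h_K(α) + (r - κ₂) h_K(β)`, the primes above `S` being omitted.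

For `κ₁ = κ₂ = 2 + ε` this is the inequality of the conjecture; hence it holds for almost all pairs
if `∑ (a_j + b_j - m_j) ≤ 4`: for example for all irreducible `D` with `q + r ≤ 5`, and for the sum
of such a `D` and of arbitrarily many fibres over `K`-points and curves of bidegree `(1, 1)`. If the
sum is smaller than `4`, more than the inequality of the conjecture is true for almost all pairs.
-/

set_option autoImplicit false

namespace Pool.Agent.Results.MP_542436_nt.AllDivisorsBalancedBoxes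

open NumberField IsDedekindDomain MvPolynomial
open scoped LinearAlgebra.Projectivization Classical

/-- the `K`-rational points of the projective line -/
abbrev P1 (K : Type) [Field K] : Type := ℙ K (Fin 2 → K)

variable {K : Type} [Field K] [NumberField K] {ℓ : ℕ}

/-- the logarithmic height relative to `K` -/
noncomputable def height (P : P1 K) : ℝ := Real.log P.mulHeight

/-- the coordinates `(s_0, s_1; t_0, t_1)` of a point of `ℙ¹ × ℙ¹` -/
noncomputable def coordinates (z : P1 K × P1 K) : Fin 4 → K :=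
  ![z.1.rep 0, z.1.rep 1, z.2.rep 0, z.2.rep 1]

/-- `F` is bihomogeneous of bidegree `(a, b)` in `(X_0, X_1; X_2, X_3)` -/
def IsBihomogeneous (F : MvPolynomial (Fin 4) (𝓞 K)) (a b : ℕ) : Prop :=
  F.IsWeightedHomogeneous (![1, 1, 0, 0] : Fin 4 → ℕ) a ∧
    F.IsWeightedHomogeneous (![0, 0, 1, 1] : Fin 4 → ℕ) b

/-- the polynomial over the field `K` -/
noncomputable def overK (F : MvPolynomial (Fin 4) (𝓞 K)) : MvPolynomial (Fin 4) K :=
  F.map (algebraMap (𝓞 K) K)

/-- `F` is, up to a constant factor, the norm of a linear form `∑ α_i X_i` with coefficients in a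
finite extension of `K`, two of which are linearly independent over `K` -/
def IsNormForm (F : MvPolynomial (Fin 4) (𝓞 K)) : Prop :=
  ∃ (E : Type) (_ : Field E) (_ : NumberField E) (_ : Algebra K E) (c : K) (α : Fin 4 → E)
    (i j : Fin 4), c ≠ 0 ∧ LinearIndependent K ![α i, α j] ∧
      ∀ x : Fin 4 → 𝓞 K, ((eval x F : 𝓞 K) : K) =
        c * Algebra.norm K (∑ l, algebraMap K E (x l) * α l)

/-- the weights `m` allowed for an irreducible component `F = 0` of bidegree `(a, b)` -/
def Weight (F : MvPolynomial (Fin 4) (𝓞 K)) (a b m : ℕ) : Prop :=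
  m = 1 ∨ (m = 2 ∧ (a + b = 2 ∨ IsNormForm F))

/-- the larger absolute value of the two coordinates -/
noncomputable def size (v : HeightOneSpectrum (𝓞 K)) (P : P1 K) : ℝ :=
  ⨆ i, FinitePlace.mk v (P.rep i)

/-- the local height at the prime `v` relative to the curve `F = 0` of bidegree `(a, b)` -/
noncomputable def localHeight (F : MvPolynomial (Fin 4) (𝓞 K)) (a b : ℕ)
    (v : HeightOneSpectrum (𝓞 K)) (z : P1 K × P1 K) : ℝ :=
  -Real.log (FinitePlace.mk v (aeval (coordinates z) F) / (size v z.1 ^ a * size v z.2 ^ b))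

/-- the truncated counting function `N_D^{(1)}`, without the primes above those of `S` -/
noncomputable def truncated (S : Finset ℕ) (F : Fin ℓ → MvPolynomial (Fin 4) (𝓞 K))
    (a b : Fin ℓ → ℕ) (z : P1 K × P1 K) : ℝ :=
  ∑ᶠ v : HeightOneSpectrum (𝓞 K), if ∀ p ∈ S, (p : 𝓞 K) ∉ v.asIdeal then
    min (Real.log (Ideal.absNorm v.asIdeal)) (∑ j, localHeight (F j) (a j) (b j) v z) else 0

/-- the pairs of points of heights at most `log B` which lie on `D` or for which
`N_D^{(1)} ≥ (∑ a_j - κ₁) h_K(α) + (∑ b_j - κ₂) h_K(β)` fails -/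
def Exceptions (S : Finset ℕ) (F : Fin ℓ → MvPolynomial (Fin 4) (𝓞 K)) (a b : Fin ℓ → ℕ)
    (κ₁ κ₂ B : ℝ) : Set (P1 K × P1 K) :=
  {z | height z.1 ≤ Real.log B ∧ height z.2 ≤ Real.log B ∧
    ((∃ j, aeval (coordinates z) (F j) = 0) ∨
      truncated S F a b z < ((∑ j, (a j : ℝ)) - κ₁) * height z.1 +
        ((∑ j, (b j : ℝ)) - κ₂) * height z.2)}

open Pool.Agent.R366.PP Pool.Agent.R366.NF

lemma exists_size {v : HeightOneSpectrum (𝓞 K)} (P : P1 K) :
    ∃ i, FinitePlace.mk v (P.rep i) = size v P ∧ P.rep i ≠ 0 := by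
  obtain ⟨i, hi⟩ := exists_eq_ciSup_of_finite (f := fun i => FinitePlace.mk v (P.rep i))
  refine ⟨i, hi, ?_⟩
  intro h0
  have h1 : size v P = 0 := by
    rw [size, ← hi]
    simp only [h0, map_zero]
  have h2 : 0 < size v P := sup_pos P.rep_nonzero (FinitePlace.mk v).1
  exact absurd h1 h2.ne'

/-- comparison of the two forms of the truncated counting function -/
lemma truncated_eq (S : Finset ℕ) (F : Fin ℓ → MvPolynomial (Fin 4) (𝓞 K)) (a b : Fin ℓ → ℕ)
    (hbi : ∀ j, IsBihomogeneous (F j) (a j) (b j)) (z : P1 K × P1 K)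
    (hz : ∀ j, aeval (coordinates z) (F j) ≠ 0) :
    Pool.Agent.R366.PP.truncatedCount S F a b z.1.rep z.2.rep = truncated S F a b z := by
  unfold Pool.Agent.R366.PP.truncatedCount truncated
  refine finsum_congr fun v => ?_
  obtain ⟨i₁, hi₁, hx₁⟩ := exists_size (v := v) z.1
  obtain ⟨i₂, hi₂, hx₂⟩ := exists_size (v := v) z.2
  have hs1 : 0 < size v z.1 := sup_pos z.1.rep_nonzero (FinitePlace.mk v).1
  have hs2 : 0 < size v z.2 := sup_pos z.2.rep_nonzero (FinitePlace.mk v).1
  have hcoo : coordinates z = join z.1.rep z.2.rep := rfl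
  -- the value of `F_j`, normalised
  have hval : ∀ j, FinitePlace.mk v (aeval (coordinates z) (F j)) /
      (size v z.1 ^ a j * size v z.2 ^ b j) =
      FinitePlace.mk v (aeval (coordinates z) (F j) / (z.1.rep i₁ ^ a j * z.2.rep i₂ ^ b j)) := by
    intro j
    rw [map_div₀, map_mul, map_pow, map_pow, hi₁, hi₂]
  have hle : ∀ j, FinitePlace.mk v (aeval (coordinates z) (F j)) ≤
      size v z.1 ^ a j * size v z.2 ^ b j := by
    intro j
    have h1 : aeval (coordinates z) (F j) = z.1.rep i₁ ^ a j * z.2.rep i₂ ^ b j *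
        aeval (join ((z.1.rep i₁)⁻¹ • z.1.rep) ((z.2.rep i₂)⁻¹ • z.2.rep)) (F j) := by
      rw [aeval_join_smul (F j) (hbi j), hcoo, inv_pow, inv_pow]
      have g1 : z.1.rep i₁ ^ a j ≠ 0 := pow_ne_zero _ hx₁
      have g2 : z.2.rep i₂ ^ b j ≠ 0 := pow_ne_zero _ hx₂
      field_simp
    rw [h1, map_mul, map_mul, map_pow, map_pow, hi₁, hi₂]
    refine mul_le_of_le_one_right (by positivity) ?_
    have hhom : (F j).IsHomogeneous (a j + b j) := Bihom.hom (hbi j)
    refine (Pool.Agent.R366.AB.fp_form_le (n := 3) (FinitePlace.mk v) (F j) hhom _).trans ?_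
    refine pow_le_one₀ (Real.iSup_nonneg fun i => apply_nonneg _ _) (ciSup_le fun i => ?_)
    have hq1 : ∀ i, FinitePlace.mk v (((z.1.rep i₁)⁻¹ • z.1.rep) i) ≤ 1 := by
      intro i
      rw [Pi.smul_apply, smul_eq_mul, map_mul, map_inv₀, hi₁, inv_mul_le_iff₀ hs1, mul_one]
      exact Finite.le_ciSup_of_le i le_rfl
    have hq2 : ∀ i, FinitePlace.mk v (((z.2.rep i₂)⁻¹ • z.2.rep) i) ≤ 1 := by
      intro i
      rw [Pi.smul_apply, smul_eq_mul, map_mul, map_inv₀, hi₂, inv_mul_le_iff₀ hs2, mul_one]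
      exact Finite.le_ciSup_of_le i le_rfl
    fin_cases i
    · exact hq1 0
    · exact hq1 1
    · exact hq2 0
    · exact hq2 1
  have hnn : ∀ j, 0 ≤ localHeight (F j) (a j) (b j) v z := by
    intro j
    unfold localHeight
    rw [neg_nonneg]
    refine Real.log_nonpos (by positivity) ?_
    rw [div_le_one (by positivity)]
    exact hle j
  have hlogN : 0 < Real.log (Ideal.absNorm v.asIdeal : ℝ) :=
    Real.log_pos (Pool.Agent.R366.AB.one_lt_N v)
  have hN0 : (0 : ℝ) < Ideal.absNorm v.asIdeal := by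
    have := Pool.Agent.R366.AB.one_lt_N v
    linarith
  by_cases hS : ∀ p ∈ S, (p : 𝓞 K) ∉ v.asIdeal
  swap
  · rw [if_neg (fun h => hS h.1), if_neg hS]
  rw [if_pos hS]
  by_cases hj : ∃ j, FinitePlace.mk v (aeval (join z.1.rep z.2.rep) (F j)) <
        (⨆ i, FinitePlace.mk v (z.1.rep i)) ^ a j * (⨆ i, FinitePlace.mk v (z.2.rep i)) ^ b j
  · rw [if_pos ⟨hS, hj⟩]
    obtain ⟨j, hj⟩ := hj
    symm
    apply min_eq_left
    have h1 : Real.log (Ideal.absNorm v.asIdeal : ℝ) ≤ localHeight (F j) (a j) (b j) v z := by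
      unfold localHeight
      rw [hval, le_neg, ← Real.log_inv]
      have h2 : aeval (coordinates z) (F j) / (z.1.rep i₁ ^ a j * z.2.rep i₂ ^ b j) ≠ 0 :=
        div_ne_zero (hz j) (mul_ne_zero (pow_ne_zero _ hx₁) (pow_ne_zero _ hx₂))
      refine Real.log_le_log (FinitePlace.pos_iff.2 h2) ?_
      refine Pool.Agent.R366.AB.fp_lt_one v h2 ?_
      rw [← hval, div_lt_one (by positivity)]
      exact hj
    exact h1.trans (Finset.single_le_sum (f := fun j => localHeight (F j) (a j) (b j) v z)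
      (fun j _ => hnn j) (Finset.mem_univ j))
  · rw [if_neg (fun h => hj h.2)]
    push Not at hj
    symm
    have h1 : ∑ j, localHeight (F j) (a j) (b j) v z = 0 := by
      refine Finset.sum_eq_zero fun j _ => ?_
      have h2 : FinitePlace.mk v (aeval (coordinates z) (F j)) =
          size v z.1 ^ a j * size v z.2 ^ b j := le_antisymm (hle j) (hj j)
      unfold localHeight
      rw [h2, div_self (by positivity), Real.log_one, neg_zero]
    rw [h1]
    exact min_eq_right hlogN.le

/-- **Vojta's inequality with truncated counting function on `ℙ¹ × ℙ¹`, for arbitrary divisors, at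
almost all pairs of points.** -/
theorem result (K : Type) [Field K] [NumberField K] {ℓ : ℕ}
    (F : Fin ℓ → MvPolynomial (Fin 4) (𝓞 K)) (a b m : Fin ℓ → ℕ)
    (hbi : ∀ j, IsBihomogeneous (F j) (a j) (b j)) (hirr : ∀ j, Irreducible (overK (F j)))
    (hdist : ∀ i j, i ≠ j → ¬ Associated (overK (F i)) (overK (F j)))
    (hm : ∀ j, Weight (F j) (a j) (b j) (m j)) (S : Finset ℕ) (hS : ∀ p ∈ S, p.Prime)
    (κ₁ κ₂ : ℝ) (hκ : ∑ j, ((a j : ℝ) + b j - m j) < κ₁ + κ₂) :
    ∃ c C : ℝ, 0 < c ∧ ∀ B : ℝ, 1 ≤ B → (Exceptions S F a b κ₁ κ₂ B).Finite ∧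
      ((Exceptions S F a b κ₁ κ₂ B).ncard : ℝ) ≤ C * B ^ ((4 : ℝ) - c) := by
  obtain ⟨c, hc, C, h⟩ := main_vojta F a b m hbi hirr hdist (by
    intro j
    rcases hm j with h | ⟨h2, h | h⟩
    · exact Or.inl h.le
    · exact Or.inr (Or.inl ⟨by omega, by omega⟩)
    · refine Or.inr (Or.inr ?_)
      obtain ⟨E, i1, i2, i3, c, α, i, j', hc, hind, hval⟩ := h
      have hij : i ≠ j' := by
        rintro rfl
        have h3 := hind.injective
        have h4 : (0 : Fin 2) = 1 := h3 (by simp)
        exact absurd h4 (by decide)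
      refine ⟨E, i1, i2, i3, c, α, {i, j'}, hc, ?_, ?_, hval⟩
      · rw [h2, Finset.card_pair hij]
      · have h5 := hind.comp (fun l : ({i, j'} : Finset (Fin 4)) => if (l : Fin 4) = i then (0 : Fin 2) else 1) (by
          intro x y hxy
          have hx := x.2
          have hy := y.2
          rw [Finset.mem_insert, Finset.mem_singleton] at hx hy
          apply Subtype.ext
          by_cases hx1 : (x : Fin 4) = i
          · by_cases hy1 : (y : Fin 4) = i
            · rw [hx1, hy1]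
            · simp [hx1, hy1] at hxy
          · by_cases hy1 : (y : Fin 4) = i
            · simp [hx1, hy1] at hxy
            · rw [hx.resolve_left hx1, hy.resolve_left hy1])
        have h6 : (fun l : ({i, j'} : Finset (Fin 4)) => α l) = ![α i, α j'] ∘
            (fun l : ({i, j'} : Finset (Fin 4)) => if (l : Fin 4) = i then (0 : Fin 2) else 1) := by
          funext x
          have hx := x.2
          rw [Finset.mem_insert, Finset.mem_singleton] at hx
          by_cases hx1 : (x : Fin 4) = i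
          · simp [hx1]
          · have hx2 : (x : Fin 4) = j' := hx.resolve_left hx1
            simp only [Function.comp_apply, hx2, if_neg (Ne.symm hij)]
            rfl
        rw [h6]
        exact h5) S hS κ₁ κ₂ hκ
  refine ⟨min c 4, max C 0 * 2 ^ ((4 : ℝ)), lt_min hc (by norm_num), fun B hB => ?_⟩
  have hB0 : 0 < B := by linarith
  obtain ⟨Z, hZ, hZ2⟩ := h ⌈B⌉₊ (Nat.one_le_ceil_iff.2 hB0)
  have hsub : Exceptions S F a b κ₁ κ₂ B ⊆ (Z : Set (P1 K × P1 K)) := by
    rintro z ⟨h1, h2, h3⟩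
    by_contra hz
    have hpos : ∀ P : P1 K, 0 < P.mulHeight := fun P => by
      have h1 : P.mulHeight = Height.mulHeight P.rep := by
        conv_lhs => rw [← P.mk_rep]
        exact Projectivization.mulHeight_mk _
      rw [h1]
      exact Height.mulHeight_pos _
    have e1 : z.1.mulHeight ≤ ⌈B⌉₊ := ((Real.log_le_log_iff (hpos _) hB0).1 h1).trans (Nat.le_ceil B)
    have e2 : z.2.mulHeight ≤ ⌈B⌉₊ := ((Real.log_le_log_iff (hpos _) hB0).1 h2).trans (Nat.le_ceil B)
    obtain ⟨g1, g2⟩ := hZ2 z.1 z.2 e1 e2 hz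
    rcases h3 with ⟨j, hj⟩ | h3
    · exact g1 j hj
    · rw [← truncated_eq S F a b hbi z g1] at h3
      exact absurd g2 (not_le.2 h3)
  refine ⟨Z.finite_toSet.subset hsub, ?_⟩
  have h1 : (Exceptions S F a b κ₁ κ₂ B).ncard ≤ Z.card := by
    rw [← Set.ncard_coe_finset]
    exact Set.ncard_le_ncard hsub Z.finite_toSet
  have h2 : ((Exceptions S F a b κ₁ κ₂ B).ncard : ℝ) ≤ Z.card := by exact_mod_cast h1
  have hceil1 : (1 : ℝ) ≤ ⌈B⌉₊ := hB.trans (Nat.le_ceil B)
  have hceil2 : (⌈B⌉₊ : ℝ) ≤ 2 * B := by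
    have := (Nat.ceil_lt_add_one hB0.le).le
    linarith
  have h3 : ((⌈B⌉₊ : ℕ) : ℝ) ^ ((4 : ℝ) - c) ≤ 2 ^ (4 : ℝ) * B ^ ((4 : ℝ) - min c 4) := by
    calc ((⌈B⌉₊ : ℕ) : ℝ) ^ ((4 : ℝ) - c) ≤ ((⌈B⌉₊ : ℕ) : ℝ) ^ ((4 : ℝ) - min c 4) :=
          Real.rpow_le_rpow_of_exponent_le hceil1 (by
            have := min_le_left c 4
            linarith)
      _ ≤ (2 * B) ^ ((4 : ℝ) - min c 4) :=
          Real.rpow_le_rpow (by linarith) hceil2 (by
            have := min_le_right c 4
            linarith)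
      _ = 2 ^ ((4 : ℝ) - min c 4) * B ^ ((4 : ℝ) - min c 4) :=
          Real.mul_rpow (by norm_num) hB0.le
      _ ≤ _ := by
          refine mul_le_mul_of_nonneg_right ?_ (by positivity)
          exact Real.rpow_le_rpow_of_exponent_le (by norm_num) (by
            have : 0 < min c 4 := lt_min hc (by norm_num)
            linarith)
  calc ((Exceptions S F a b κ₁ κ₂ B).ncard : ℝ) ≤ Z.card := h2
    _ ≤ C * ((⌈B⌉₊ : ℕ) : ℝ) ^ ((4 : ℝ) - c) := hZ
    _ ≤ max C 0 * ((⌈B⌉₊ : ℕ) : ℝ) ^ ((4 : ℝ) - c) :=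
        mul_le_mul_of_nonneg_right (le_max_left _ _) (by positivity)
    _ ≤ max C 0 * (2 ^ (4 : ℝ) * B ^ ((4 : ℝ) - min c 4)) :=
        mul_le_mul_of_nonneg_left h3 (le_max_right _ _)
    _ = _ := by ring

end Pool.Agent.Results.MP_542436_nt.AllDivisorsBalancedBoxes
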