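import Pool.Agent.Results.MP_542436_nt.BoxExceptions
import Pool.Agent.R559.NP.Near5

/-!
# The truncated inequality of Vojta for grids on `ℙ¹ × ℙ¹` at all points near a given point

Let `3 ≤ q ≤ r`, `0 ≤ κ ≤ q` and let `φ` be any map from the rational points of `ℙ¹ × ℙ¹` to a metric space `X`, for example
the inclusion in `ℙ¹(ℝ) × ℙ¹(ℝ)` or in `ℙ¹(ℚ_l) × ℙ¹(ℚ_l)`.  For all `ξ ∈ X` outside a set of Hausdorff dimension at most
`(4 - 4 κ / r) / τ`, ALL grids `D = ⋃ {s = α_i} ∪ ⋃ {t = β_j}` of `q` and `r` different fibres over `ℚ`, all finite sets `S`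
of primes and all `c`, all but finitely many points `P = (x, y)` off `D` with
`dist (φ P) ξ ≤ A max (H(x), H(y)) ^ (-τ)` satisfy `N^(1)_D(P) ≥ (q - κ) h(x) + (r - κ) h(y) + c`; for `κ = 2` this is the
inequality of the conjecture without its `ε`.
-/

set_option autoImplicit false

open Filter Topology

namespace Pool.Agent.Results.MP_542436_nt.GridPointsNearAPoint

open BoxExceptions (Coord height wedge form trunc)

/-- the size -/
noncomputable def H (P : (ℤ × ℤ) × (ℤ × ℤ)) : ℝ := max 1 (max (height P.1 : ℝ) (height P.2 : ℝ))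

lemma height_pos {x : ℤ × ℤ} (h : Coord x) : 1 ≤ height x := by
  unfold height
  rcases h.2 with h | ⟨-, h⟩
  · exact le_max_of_le_right (by omega)
  · exact le_max_of_le_left (by omega)

/-- **Theorem.** Let `3 ≤ q ≤ r`, `0 ≤ κ ≤ q`, let `φ` be a map from the points of `ℙ¹ × ℙ¹` over `ℚ` (given by normalised
coprime coordinates) to a metric space `X` and `τ > 0`.  There is `E ⊆ X` of Hausdorff dimension at most
`(4 - 4 κ / r) / τ` such that for all `ξ ∈ X` outside `E`, all different points `α_1, …, α_q` and all different points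
`β_1, …, β_r` of the projective line over `ℚ`, all finite sets `S` of primes and all `c` and `A` there are only finitely many
points `P = (x, y)` off the grid `D` with `dist (φ P) ξ ≤ A max (H(x), H(y)) ^ (-τ)` and
`N^(1)_D(P) < (q - κ) h(x) + (r - κ) h(y) + c`. -/
theorem result (q r : ℕ) (hq : 3 ≤ q) (hqr : q ≤ r) (κ : ℝ) (hκ0 : 0 ≤ κ) (hκ : κ ≤ q) (X : Type) [MetricSpace X]
    (φ : (ℤ × ℤ) × (ℤ × ℤ) → X) (τ : ℝ) (hτ : 0 < τ) :
    ∃ E : Set X, dimH E ≤ ENNReal.ofReal ((4 - 4 * κ / (r : ℝ)) / τ) ∧ ∀ ξ : X, ξ ∉ E →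
      ∀ (α : Fin q → ℤ × ℤ) (β : Fin r → ℤ × ℤ), (∀ i, IsCoprime (α i).1 (α i).2) →
        (∀ j, IsCoprime (β j).1 (β j).2) → (∀ i j, i ≠ j → (α i).1 * (α j).2 ≠ (α j).1 * (α i).2) →
        (∀ i j, i ≠ j → (β i).1 * (β j).2 ≠ (β j).1 * (β i).2) → ∀ (S : Finset ℕ) (c A : ℝ),
          {P : (ℤ × ℤ) × (ℤ × ℤ) | Coord P.1 ∧ Coord P.2 ∧ form α P.1 * form β P.2 ≠ 0 ∧
            dist (φ P) ξ ≤ A * (max (height P.1 : ℝ) (height P.2 : ℝ)) ^ (-τ) ∧
            trunc S (form α P.1 * form β P.2) <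
              ((q : ℝ) - κ) * Real.log (height P.1) + ((r : ℝ) - κ) * Real.log (height P.2) + c}.Finite := by
  classical
  have hr0 : (0 : ℝ) < r := by exact_mod_cast (by omega : 0 < r)
  have hqr' : (q : ℝ) ≤ r := by exact_mod_cast hqr
  have hs : 0 ≤ 4 - 4 * κ / (r : ℝ) := by
    have h1 : 4 * κ / (r : ℝ) ≤ 4 := by
      rw [div_le_iff₀ hr0]
      linarith
    linarith
  let Y : Type := {y : (Fin q → ℤ × ℤ) × (Fin r → ℤ × ℤ) × Finset ℕ × ℕ //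
    (∀ i, IsCoprime (y.1 i).1 (y.1 i).2) ∧ (∀ j, IsCoprime (y.2.1 j).1 (y.2.1 j).2) ∧
    (∀ i j, i ≠ j → (y.1 i).1 * (y.1 j).2 ≠ (y.1 j).1 * (y.1 i).2) ∧
    (∀ i j, i ≠ j → (y.2.1 i).1 * (y.2.1 j).2 ≠ (y.2.1 j).1 * (y.2.1 i).2)}
  obtain ⟨E, hE, hE'⟩ := Pool.Agent.R559.NP.near_lim_fam (T := (ℤ × ℤ) × (ℤ × ℤ)) (X := X) (Y := Y)
    (H := H) (fun P => le_max_left _ _)
    (Bad := fun _ y P => Coord P.1 ∧ Coord P.2 ∧ form y.1.1 P.1 * form y.1.2.1 P.2 ≠ 0 ∧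
      trunc y.1.2.2.1 (form y.1.1 P.1 * form y.1.2.1 P.2) <
        ((q : ℝ) - κ) * Real.log (height P.1) + ((r : ℝ) - κ) * Real.log (height P.2) + (y.1.2.2.2 : ℝ))
    (s := fun _ => 4 - 4 * κ / (r : ℝ)) (s₀ := 4 - 4 * κ / (r : ℝ)) (fun _ => hs) tendsto_const_nhds
    (by
      intro _ y ε hε
      obtain ⟨C, hC, h⟩ := BoxExceptions.result q r hq hqr y.1.1 y.1.2.1 y.2.1 y.2.2.1 y.2.2.2.1 y.2.2.2.2
        y.1.2.2.1 κ (y.1.2.2.2 : ℝ) (ε / 2) hκ0 hκ (by linarith)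
      refine ⟨C, fun B hB => ?_⟩
      obtain ⟨h1, h2⟩ := h B B hB hB
      have hsub : {P : (ℤ × ℤ) × (ℤ × ℤ) | (Coord P.1 ∧ Coord P.2 ∧ form y.1.1 P.1 * form y.1.2.1 P.2 ≠ 0 ∧
          trunc y.1.2.2.1 (form y.1.1 P.1 * form y.1.2.1 P.2) <
            ((q : ℝ) - κ) * Real.log (height P.1) + ((r : ℝ) - κ) * Real.log (height P.2) +
              (y.1.2.2.2 : ℝ)) ∧ H P ≤ B} ⊆
          BoxExceptions.Exc y.1.1 y.1.2.1 y.1.2.2.1 κ (y.1.2.2.2 : ℝ) B B := by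
        rintro P ⟨⟨g1, g2, g3, g4⟩, g5⟩
        have g6 : max (height P.1 : ℝ) (height P.2 : ℝ) ≤ B := (le_max_right _ _).trans g5
        rw [max_le_iff] at g6
        exact ⟨g1, g2, g3, g6.1, g6.2, g4⟩
      refine ⟨h1.subset hsub, ?_⟩
      have h3 := Set.ncard_le_ncard hsub h1
      refine le_trans (by exact_mod_cast h3) (h2.trans (le_of_eq ?_))
      have hB0 : 0 < B := by linarith
      rw [← pow_two, ← Real.rpow_natCast B 2, ← Real.rpow_mul hB0.le]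
      congr 2
      push_cast
      ring)
    (fun _ => φ) hτ
  refine ⟨E, hE, fun ξ hξ α β h1 h2 h3 h4 S c A => ?_⟩
  obtain ⟨-, hj⟩ := hE' ξ hξ
  obtain ⟨n, hn⟩ := exists_nat_ge c
  refine (hj ⟨(α, β, S, n), h1, h2, h3, h4⟩ A).subset ?_
  rintro P ⟨g1, g2, g3, g4, g5⟩
  have g6 : (1 : ℝ) ≤ max (height P.1 : ℝ) (height P.2 : ℝ) :=
    le_max_of_le_left (by exact_mod_cast height_pos g1)
  have g7 : H P = max (height P.1 : ℝ) (height P.2 : ℝ) := max_eq_right g6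
  refine ⟨?_, g1, g2, g3, ?_⟩
  · show dist (φ P) ξ ≤ A * H P ^ (-τ)
    rw [g7]
    exact g4
  · refine lt_of_lt_of_le g5 ?_
    show _ ≤ _ + (n : ℝ)
    linarith

end Pool.Agent.Results.MP_542436_nt.GridPointsNearAPoint
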