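import Mathlib
import Pool.Agent.R343.LU9

set_option autoImplicit false

/-!
# The truncated inequality of Vojta on the product of two lines for points with compressible digits

A word of letters is cut into `z` phrases (`LZ a N z`, Lempel and Ziv) if each phrase is a single
letter, or a (possibly empty) copy of a block that begins further to the left; the block may
overlap the phrase. For instance the word `u v ^ m w` has a number of phrases which does not depend
on `m`.

Let `D` be the divisor on `P^1 x P^1` over `ℚ` with the components `D_i = {F i = 0}`, `F i`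
bihomogeneous of bidegree `(q i, q' i)` in the variables `(X_0, X_1; X_2, X_3)`, such that `D` has
simple normal crossings. Let a finitely generated group `Γ` of rational numbers, the shape `τ`, `e` of
the factorisations, bases, `z` and `ε > 0` be given.

1. There is a proper closed subset `Z` (the union of `X_0 = 0`, `X_2 = 0` and
   `G (X_1 / X_0, X_3 / X_2) = 0`) and a constant `C` such that all points `(α, β)` off `Z` and `D`, with
   coprime integral coordinates `(x_0 : x_1; x_2 : x_3)` and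

   `F i (x) = w i * ∏_{τ j = i} y j ^ (e j)`, `w i` integers in `Γ`,

   for which the digits of each `x_c` in base `b c` and of each integer `y j` in base `c j`, read
   upwards or downwards, form words with `z` phrases, satisfy

   `(∑ q i - 2 - ε) h(α) + (∑ q' i - 2 - ε) h(β) ≤ ∑ log |y j| + C`.

   There is no restriction on the lengths of the phrases and of their periods.

2. The same if the `x_c` and `y j` are sums of `r` products `g y`, `g ∈ Γ`, `y` the value of a word with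
   `z` phrases of integral letters of absolute value at most `B0`, of length `L`,
   `L log b ≤ M (1 + h(α) + h(β))`.

This is the inequality of the conjecture, `N^(1)_D` being replaced by the logarithm of the radical
read off from the given factorisation.

The proof: if no period of a phrase has a size between `δ' L` and `δ L`, then a product `D` of
numbers `b ^ π - 1` with `log D` at most a small multiple of `L` makes all `D x_c` and `D y j` sums of
boundedly many powers of the bases with small coefficients; one of finitely many scales works. The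
theorem on sparse points (SparseNormalCrossings) is extended to points with such a common
denominator, which does not change the coordinates (they remain coprime) and the factorisations.
-/

namespace Pool.Agent.Results.MP_542436_nt.LempelZivPoints

open Finset Pool.Agent.R343.LP Pool.Agent.R343.LT MvPolynomial

/-- The result: (1) digits, (2) sums of products of elements of `Γ` and values of words. -/
theorem result :
    (∀ (N p : ℕ) (F : Fin N → MvPolynomial (Fin 4) ℚ) (q q' : Fin N → ℕ),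
      (∀ i, (F i).IsWeightedHomogeneous ![1, 1, 0, 0] (q i)) →
      (∀ i, (F i).IsWeightedHomogeneous ![0, 0, 1, 1] (q' i)) →
      (∀ z : Fin 4 → ℂ, (z 0 ≠ 0 ∨ z 1 ≠ 0) → (z 2 ≠ 0 ∨ z 3 ≠ 0) → LinearIndependent ℂ
        (fun i : {i : Fin N // aeval z (F i) = 0} => fun c : Fin 4 => aeval z (pderiv c (F i)))) →
      ∀ (τ : Fin p → Fin N) (e : Fin p → ℕ), (∀ i, 1 ≤ e i) → ∀ Γ : Subgroup ℚˣ, Γ.FG →
      ∀ (b : Fin 4 → ℕ) (c : Fin p → ℕ), (∀ i, 2 ≤ b i) → (∀ i, 2 ≤ c i) → ∀ (z : ℕ) (ε : ℝ),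
      0 < ε →
      ∃ (G : MvPolynomial (Fin 2) ℚ) (C : ℝ), G ≠ 0 ∧
        ∀ (x : Fin 4 → ℤ) (y : Fin p → ℤ) (w : Fin N → ℤ),
          (∀ i, LZDigits (b i) z (x i)) → (∀ j, LZDigits (c j) z (y j)) →
          (∀ σ, ∃ g ∈ Γ, (w σ : ℚ) = (g : ℚ)) →
          (∀ σ, aeval (fun c => (x c : ℚ)) (F σ) =
            ((w σ * ∏ i with τ i = σ, y i ^ (e i) : ℤ) : ℚ)) →
          (∀ σ, aeval (fun c => (x c : ℚ)) (F σ) ≠ 0) →
          IsCoprime (x 0) (x 1) → IsCoprime (x 2) (x 3) → x 0 ≠ 0 → x 2 ≠ 0 →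
          aeval (![(x 1 : ℚ) / x 0, (x 3 : ℚ) / x 2] : Fin 2 → ℚ) G ≠ 0 →
          ((∑ i, q i : ℕ) - 2 - ε) * Real.log (max |(x 0 : ℝ)| |(x 1 : ℝ)|) +
            ((∑ i, q' i : ℕ) - 2 - ε) * Real.log (max |(x 2 : ℝ)| |(x 3 : ℝ)|) ≤
            ∑ i, Real.log |(y i : ℝ)| + C) ∧
    (∀ (N p r : ℕ) (F : Fin N → MvPolynomial (Fin 4) ℚ) (q q' : Fin N → ℕ),
      (∀ i, (F i).IsWeightedHomogeneous ![1, 1, 0, 0] (q i)) →
      (∀ i, (F i).IsWeightedHomogeneous ![0, 0, 1, 1] (q' i)) →
      (∀ z : Fin 4 → ℂ, (z 0 ≠ 0 ∨ z 1 ≠ 0) → (z 2 ≠ 0 ∨ z 3 ≠ 0) → LinearIndependent ℂ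
        (fun i : {i : Fin N // aeval z (F i) = 0} => fun c : Fin 4 => aeval z (pderiv c (F i)))) →
      ∀ (τ : Fin p → Fin N) (e : Fin p → ℕ), (∀ i, 1 ≤ e i) → ∀ Γ : Subgroup ℚˣ, Γ.FG →
      ∀ (b : Fin 4 → Fin r → ℕ) (c : Fin p → Fin r → ℕ), (∀ i j, 2 ≤ b i j) →
      (∀ i j, 2 ≤ c i j) → ∀ (z : ℕ) (B0 : ℤ), 0 ≤ B0 → ∀ M ε : ℝ, 0 ≤ M → 0 < ε →
      ∃ (G : MvPolynomial (Fin 2) ℚ) (C : ℝ), G ≠ 0 ∧
        ∀ (x : Fin 4 → ℤ) (y : Fin p → ℤ) (w : Fin N → ℤ),
          (∀ i, CompR Γ (b i) z B0 (M * (1 + ht2 x)) (x i)) →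
          (∀ j, CompR Γ (c j) z B0 (M * (1 + ht2 x)) (y j)) →
          (∀ σ, ∃ g ∈ Γ, (w σ : ℚ) = (g : ℚ)) →
          (∀ σ, aeval (fun c => (x c : ℚ)) (F σ) =
            ((w σ * ∏ i with τ i = σ, y i ^ (e i) : ℤ) : ℚ)) →
          (∀ σ, aeval (fun c => (x c : ℚ)) (F σ) ≠ 0) →
          IsCoprime (x 0) (x 1) → IsCoprime (x 2) (x 3) → x 0 ≠ 0 → x 2 ≠ 0 →
          aeval (![(x 1 : ℚ) / x 0, (x 3 : ℚ) / x 2] : Fin 2 → ℚ) G ≠ 0 →
          ((∑ i, q i : ℕ) - 2 - ε) * Real.log (max |(x 0 : ℝ)| |(x 1 : ℝ)|) +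
            ((∑ i, q' i : ℕ) - 2 - ε) * Real.log (max |(x 2 : ℝ)| |(x 3 : ℝ)|) ≤
            ∑ i, Real.log |(y i : ℝ)| + C) :=
  ⟨fun N p F q q' hq hr hNC τ e he Γ hΓ b c hb hc z ε hε =>
      p1Digits N p F q q' hq hr hNC τ e he Γ hΓ b c hb hc z ε hε,
    fun N p r F q q' hq hr hNC τ e he Γ hΓ b c hb hc z B0 hB0 M ε hM hε =>
      p1LZ N p r F q q' hq hr hNC τ e he Γ hΓ b c hb hc z B0 hB0 M ε hM hε⟩

end Pool.Agent.Results.MP_542436_nt.LempelZivPoints
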