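import Mathlib
import Pool.Agent.R366.RD.Main
import Pool.Agent.R366.AB.Loc

/-!
# Vojta's inequality with truncated counting function on `ℙ¹ × ℙ¹`: almost all divisors of given
# bidegrees, all pairs of points

Let `K` be a number field of degree `d`. We consider the divisors `D = D_1 + … + D_ℓ`,
`D_j = {F_j = 0}`, on `ℙ¹ × ℙ¹`, where `F_j` is a form of the given bidegree `(a_j, b_j)`, whose
coefficients are algebraic integers of `K` with all conjugates at most `H`. There are about
`H ^ (d M)` such tuples `(F_1, …, F_ℓ)`, where `M = ∑ (a_j + 1)(b_j + 1)` is the number of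
coefficients. We show that all but at most `C H ^ (d (M - δ) + ε)` of them have the property
`N_D^{(1)}(α, β) ≥ (q - 2) h_K(α) + (r - 2) h_K(β) + (ℓ - δ) d log H`
for **all** pairs `(α, β)` of `K`-points off `D` whose heights are at most `d log H`; here
`q = ∑ a_j`, `r = ∑ b_j`. One of the two heights may even be larger: if `a_j ≥ m` and `b_j ≥ n` for
all `j`, then the pairs with `h_K(α) ≤ d log H`, `h_K(β) ≤ d log H + m h_K(α)`, and those with
`h_K(β) ≤ d log H`, `h_K(α) ≤ d log H + n h_K(β)` are allowed.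

For `δ = ℓ` this says that the inequality of the conjecture holds, with `ε = 0`, `C = 0` and empty
exceptional set, at all these pairs, for all but `C H ^ (d (M - ℓ) + ε)` of the divisors.
-/

set_option autoImplicit false

namespace Pool.Agent.Results.MP_542436_nt.RandomDivisors

open NumberField IsDedekindDomain MvPolynomial
open scoped LinearAlgebra.Projectivization Classical

/-- the `K`-rational points of the projective line -/
abbrev P1 (K : Type) [Field K] : Type := ℙ K (Fin 2 → K)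

variable {K : Type} [Field K] [NumberField K] {ℓ : ℕ}

/-- the logarithmic height relative to `K` -/
noncomputable def height (P : P1 K) : ℝ := Real.log P.mulHeight

/-- the coordinates `(s_0, s_1; t_0, t_1)` of a point of `ℙ¹ × ℙ¹` -/
noncomputable def coordinates (z : P1 K × P1 K) : Fin 4 → K :=
  ![z.1.rep 0, z.1.rep 1, z.2.rep 0, z.2.rep 1]

/-- `F` is bihomogeneous of bidegree `(a, b)` in `(X_0, X_1; X_2, X_3)` -/
def IsBihomogeneous (F : MvPolynomial (Fin 4) (𝓞 K)) (a b : ℕ) : Prop :=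
  F.IsWeightedHomogeneous (![1, 1, 0, 0] : Fin 4 → ℕ) a ∧
    F.IsWeightedHomogeneous (![0, 0, 1, 1] : Fin 4 → ℕ) b

/-- all conjugates of all coefficients of `F` are at most `H` in absolute value -/
def CoefficientsAtMost (H : ℝ) (F : MvPolynomial (Fin 4) (𝓞 K)) : Prop :=
  ∀ (e : Fin 4 →₀ ℕ) (φ : K →+* ℂ), ‖φ ((coeff e F : 𝓞 K) : K)‖ ≤ H

/-- the larger absolute value of the two coordinates -/
noncomputable def size (v : HeightOneSpectrum (𝓞 K)) (P : P1 K) : ℝ :=
  ⨆ i, FinitePlace.mk v (P.rep i)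

/-- the local height at the prime `v` relative to the curve `F = 0` of bidegree `(a, b)` -/
noncomputable def localHeight (F : MvPolynomial (Fin 4) (𝓞 K)) (a b : ℕ)
    (v : HeightOneSpectrum (𝓞 K)) (z : P1 K × P1 K) : ℝ :=
  -Real.log (FinitePlace.mk v (aeval (coordinates z) F) / (size v z.1 ^ a * size v z.2 ^ b))

/-- the truncated counting function `N_D^{(1)}` of the divisor `D = ∑ {F_j = 0}` -/
noncomputable def truncated (F : Fin ℓ → MvPolynomial (Fin 4) (𝓞 K)) (a b : Fin ℓ → ℕ)
    (z : P1 K × P1 K) : ℝ :=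
  ∑ᶠ v : HeightOneSpectrum (𝓞 K),
    min (Real.log (Ideal.absNorm v.asIdeal)) (∑ j, localHeight (F j) (a j) (b j) v z)

/-- the pairs `(α, β)` with `h_K(α) ≤ d log H`, `h_K(β) ≤ d log H + m h_K(α)`, or
`h_K(β) ≤ d log H`, `h_K(α) ≤ d log H + n h_K(β)`, where `d = [K : ℚ]` -/
def Region (K : Type) [Field K] [NumberField K] (H : ℝ) (m n : ℕ) : Set (P1 K × P1 K) :=
  {z | (height z.1 ≤ Module.finrank ℚ K * Real.log H ∧
      height z.2 ≤ Module.finrank ℚ K * Real.log H + m * height z.1) ∨
    (height z.2 ≤ Module.finrank ℚ K * Real.log H ∧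
      height z.1 ≤ Module.finrank ℚ K * Real.log H + n * height z.2)}

/-- the tuples of forms `(F_1, …, F_ℓ)` of the bidegrees `(a_j, b_j)` with coefficients at most `H`
for which the inequality
`N_D^{(1)}(α, β) ≥ (∑ a_j - 2) h_K(α) + (∑ b_j - 2) h_K(β) + (ℓ - δ) d log H`
fails at some pair `(α, β)` of the region off `D` -/
def Bad (K : Type) [Field K] [NumberField K] (a b : Fin ℓ → ℕ) (m n : ℕ) (δ H : ℝ) :
    Set (Fin ℓ → MvPolynomial (Fin 4) (𝓞 K)) :=
  {F | (∀ j, IsBihomogeneous (F j) (a j) (b j)) ∧ (∀ j, CoefficientsAtMost H (F j)) ∧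
    ∃ z ∈ Region K H m n, (∀ j, aeval (coordinates z) (F j) ≠ 0) ∧
      truncated F a b z < ((∑ j, (a j : ℝ)) - 2) * height z.1 +
        ((∑ j, (b j : ℝ)) - 2) * height z.2 + (ℓ - δ) * Module.finrank ℚ K * Real.log H}

open Pool.Agent.R366.PP Pool.Agent.R366.NF

lemma exists_size {v : HeightOneSpectrum (𝓞 K)} (P : P1 K) :
    ∃ i, FinitePlace.mk v (P.rep i) = size v P ∧ P.rep i ≠ 0 := by
  obtain ⟨i, hi⟩ := exists_eq_ciSup_of_finite (f := fun i => FinitePlace.mk v (P.rep i))
  refine ⟨i, hi, ?_⟩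
  intro h0
  have h1 : size v P = 0 := by
    rw [size, ← hi]
    simp only [h0, map_zero]
  have h2 : 0 < size v P := sup_pos P.rep_nonzero (FinitePlace.mk v).1
  exact absurd h1 h2.ne'

/-- comparison of the two forms of the truncated counting function -/
lemma truncated_eq (F : Fin ℓ → MvPolynomial (Fin 4) (𝓞 K)) (a b : Fin ℓ → ℕ)
    (hbi : ∀ j, IsBihomogeneous (F j) (a j) (b j)) (z : P1 K × P1 K)
    (hz : ∀ j, aeval (coordinates z) (F j) ≠ 0) :
    Pool.Agent.R366.PP.truncatedCount ∅ F a b z.1.rep z.2.rep = truncated F a b z := by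
  unfold Pool.Agent.R366.PP.truncatedCount truncated
  refine finsum_congr fun v => ?_
  obtain ⟨i₁, hi₁, hx₁⟩ := exists_size (v := v) z.1
  obtain ⟨i₂, hi₂, hx₂⟩ := exists_size (v := v) z.2
  have hs1 : 0 < size v z.1 := sup_pos z.1.rep_nonzero (FinitePlace.mk v).1
  have hs2 : 0 < size v z.2 := sup_pos z.2.rep_nonzero (FinitePlace.mk v).1
  have hcoo : coordinates z = join z.1.rep z.2.rep := rfl
  -- the value of `F_j`, normalised
  have hval : ∀ j, FinitePlace.mk v (aeval (coordinates z) (F j)) /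
      (size v z.1 ^ a j * size v z.2 ^ b j) =
      FinitePlace.mk v (aeval (coordinates z) (F j) / (z.1.rep i₁ ^ a j * z.2.rep i₂ ^ b j)) := by
    intro j
    rw [map_div₀, map_mul, map_pow, map_pow, hi₁, hi₂]
  have hle : ∀ j, FinitePlace.mk v (aeval (coordinates z) (F j)) ≤
      size v z.1 ^ a j * size v z.2 ^ b j := by
    intro j
    have h1 : aeval (coordinates z) (F j) = z.1.rep i₁ ^ a j * z.2.rep i₂ ^ b j *
        aeval (join ((z.1.rep i₁)⁻¹ • z.1.rep) ((z.2.rep i₂)⁻¹ • z.2.rep)) (F j) := by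
      rw [aeval_join_smul (F j) (hbi j), hcoo, inv_pow, inv_pow]
      have g1 : z.1.rep i₁ ^ a j ≠ 0 := pow_ne_zero _ hx₁
      have g2 : z.2.rep i₂ ^ b j ≠ 0 := pow_ne_zero _ hx₂
      field_simp
    rw [h1, map_mul, map_mul, map_pow, map_pow, hi₁, hi₂]
    refine mul_le_of_le_one_right (by positivity) ?_
    have hhom : (F j).IsHomogeneous (a j + b j) := Bihom.hom (hbi j)
    refine (Pool.Agent.R366.AB.fp_form_le (n := 3) (FinitePlace.mk v) (F j) hhom _).trans ?_
    refine pow_le_one₀ (Real.iSup_nonneg fun i => apply_nonneg _ _) (ciSup_le fun i => ?_)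
    have hq1 : ∀ i, FinitePlace.mk v (((z.1.rep i₁)⁻¹ • z.1.rep) i) ≤ 1 := by
      intro i
      rw [Pi.smul_apply, smul_eq_mul, map_mul, map_inv₀, hi₁, inv_mul_le_iff₀ hs1, mul_one]
      exact Finite.le_ciSup_of_le i le_rfl
    have hq2 : ∀ i, FinitePlace.mk v (((z.2.rep i₂)⁻¹ • z.2.rep) i) ≤ 1 := by
      intro i
      rw [Pi.smul_apply, smul_eq_mul, map_mul, map_inv₀, hi₂, inv_mul_le_iff₀ hs2, mul_one]
      exact Finite.le_ciSup_of_le i le_rfl
    fin_cases i
    · exact hq1 0
    · exact hq1 1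
    · exact hq2 0
    · exact hq2 1
  have hnn : ∀ j, 0 ≤ localHeight (F j) (a j) (b j) v z := by
    intro j
    unfold localHeight
    rw [neg_nonneg]
    refine Real.log_nonpos (by positivity) ?_
    rw [div_le_one (by positivity)]
    exact hle j
  have hlogN : 0 < Real.log (Ideal.absNorm v.asIdeal : ℝ) :=
    Real.log_pos (Pool.Agent.R366.AB.one_lt_N v)
  have hN0 : (0 : ℝ) < Ideal.absNorm v.asIdeal := by
    have := Pool.Agent.R366.AB.one_lt_N v
    linarith
  have hS : ∀ p ∈ (∅ : Finset ℕ), (p : 𝓞 K) ∉ v.asIdeal := by simp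
  by_cases hj : ∃ j, FinitePlace.mk v (aeval (join z.1.rep z.2.rep) (F j)) <
        (⨆ i, FinitePlace.mk v (z.1.rep i)) ^ a j * (⨆ i, FinitePlace.mk v (z.2.rep i)) ^ b j
  · rw [if_pos ⟨hS, hj⟩]
    obtain ⟨j, hj⟩ := hj
    symm
    apply min_eq_left
    have h1 : Real.log (Ideal.absNorm v.asIdeal : ℝ) ≤ localHeight (F j) (a j) (b j) v z := by
      unfold localHeight
      rw [hval, le_neg, ← Real.log_inv]
      have h2 : aeval (coordinates z) (F j) / (z.1.rep i₁ ^ a j * z.2.rep i₂ ^ b j) ≠ 0 :=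
        div_ne_zero (hz j) (mul_ne_zero (pow_ne_zero _ hx₁) (pow_ne_zero _ hx₂))
      refine Real.log_le_log (FinitePlace.pos_iff.2 h2) ?_
      refine Pool.Agent.R366.AB.fp_lt_one v h2 ?_
      rw [← hval, div_lt_one (by positivity)]
      exact hj
    exact h1.trans (Finset.single_le_sum (f := fun j => localHeight (F j) (a j) (b j) v z)
      (fun j _ => hnn j) (Finset.mem_univ j))
  · rw [if_neg (fun h => hj h.2)]
    push Not at hj
    symm
    have h1 : ∑ j, localHeight (F j) (a j) (b j) v z = 0 := by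
      refine Finset.sum_eq_zero fun j _ => ?_
      have h2 : FinitePlace.mk v (aeval (coordinates z) (F j)) =
          size v z.1 ^ a j * size v z.2 ^ b j := le_antisymm (hle j) (hj j)
      unfold localHeight
      rw [h2, div_self (by positivity), Real.log_one, neg_zero]
    rw [h1]
    exact min_eq_right hlogN.le

/-- **Vojta's inequality with truncated counting function on `ℙ¹ × ℙ¹` for almost all divisors of
given bidegrees, at all pairs of points of heights up to, and beyond, the height of the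
coefficients.** -/
theorem result (K : Type) [Field K] [NumberField K] {ℓ : ℕ} (a b : Fin ℓ → ℕ) (m n : ℕ)
    (hm : ∀ j, m ≤ a j) (hn : ∀ j, n ≤ b j) (δ ε : ℝ) (hε : 0 < ε) :
    ∃ C : ℝ, ∀ H : ℝ, 1 ≤ H → (Bad K a b m n δ H).Finite ∧
      ((Bad K a b m n δ H).ncard : ℝ) ≤
        C * H ^ (Module.finrank ℚ K * ((∑ j, ((a j : ℝ) + 1) * ((b j : ℝ) + 1)) - δ) + ε) := by
  obtain ⟨C, -, h⟩ := Pool.Agent.R366.RD.main_random K a b m n hm hn δ hε
  refine ⟨C, fun H hH => ?_⟩
  have hH0 : 0 < H := by linarith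
  have key : ∀ T : Finset (Fin ℓ → MvPolynomial (Fin 4) (𝓞 K)), (T : Set _) ⊆ Bad K a b m n δ H →
      (T.card : ℝ) ≤
        C * H ^ (Module.finrank ℚ K * ((∑ j, ((a j : ℝ) + 1) * ((b j : ℝ) + 1)) - δ) + ε) := by
    intro T hT
    refine h H hH T ?_
    intro F hF
    obtain ⟨h1, h2, z, hz, hne, hlt⟩ := hT hF
    refine ⟨h1, ?_, z.1, z.2, ?_, hne, ?_⟩
    · intro j w x
      rw [← InfinitePlace.norm_embedding_eq]
      exact h2 j x w.embedding
    · have hpos : ∀ P : P1 K, 0 < P.mulHeight := fun P =>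
        zero_lt_one.trans_le (Pool.Agent.R366.RD.one_le_height P)
      have hle : ∀ (P Q : P1 K) (k : ℕ), height P ≤ Module.finrank ℚ K * Real.log H + k * height Q →
          P.mulHeight ≤ H ^ Module.finrank ℚ K * Q.mulHeight ^ k := by
        intro P Q k hk
        have h3 : (0 : ℝ) < H ^ Module.finrank ℚ K * Q.mulHeight ^ k := by
          have := hpos Q
          positivity
        refine (Real.log_le_log_iff (hpos P) h3).1 ?_
        rw [Real.log_mul (by positivity) (pow_pos (hpos Q) _).ne', Real.log_pow, Real.log_pow]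
        exact hk
      have hle' : ∀ P : P1 K, height P ≤ Module.finrank ℚ K * Real.log H →
          P.mulHeight ≤ H ^ Module.finrank ℚ K := by
        intro P hk
        refine (Real.log_le_log_iff (hpos P) (by positivity)).1 ?_
        rw [Real.log_pow]
        exact hk
      rcases hz with ⟨g1, g2⟩ | ⟨g1, g2⟩
      · exact Or.inl ⟨hle' _ g1, hle _ _ _ g2⟩
      · exact Or.inr ⟨hle' _ g1, hle _ _ _ g2⟩
    · rw [truncated_eq F a b h1 z hne]
      exact hlt
  have hfin : (Bad K a b m n δ H).Finite := by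
    by_contra hinf
    change (Bad K a b m n δ H).Infinite at hinf
    set X : ℝ := C * H ^ (Module.finrank ℚ K * ((∑ j, ((a j : ℝ) + 1) * ((b j : ℝ) + 1)) - δ) + ε)
    obtain ⟨T, hT1, hT2⟩ := hinf.exists_subset_card_eq (⌈X⌉₊ + 1)
    have h3 := key T hT1
    rw [hT2] at h3
    have h4 := Nat.le_ceil X
    push_cast at h3
    linarith
  refine ⟨hfin, ?_⟩
  rw [Set.ncard_eq_toFinset_card _ hfin]
  exact key _ (by rw [Set.Finite.coe_toFinset])

end Pool.Agent.Results.MP_542436_nt.RandomDivisors
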